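import Mathlib

set_option maxHeartbeats 400000

namespace Pool.Agent.Results.MP_c23b5e_al.Full

open MulAction LaurentPolynomial

/-- `{N} ∪ 𝒜` is a nontrivial Frobenius partition of `G` -/
def FP {G : Type} [Group G] (N : Subgroup G) (𝒜 : Set (Subgroup G)) : Prop :=
  (∀ g : G, g ≠ 1 → ∃! H, H ∈ insert N 𝒜 ∧ g ∈ H) ∧ N.Normal ∧
  (∀ A ∈ 𝒜, ∀ γ ∉ A, ∀ a ∈ A, γ⁻¹ * a * γ ∈ A → a = 1) ∧
  (∀ A ∈ 𝒜, ∀ γ : G, A.comap (MulAut.conj γ).toMonoidHom ∈ 𝒜) ∧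
  ∃ H ∈ insert N 𝒜, ∃ K ∈ insert N 𝒜, H ≠ K ∧ H ≠ ⊥ ∧ K ≠ ⊥

abbrev R : Type := LaurentPolynomial ℤ
abbrev D : Type := LaurentPolynomial (ZMod 2)
abbrev K : Type := FractionRing R
noncomputable abbrev a : R →+* K := algebraMap R K
lemma ai : Function.Injective a := IsFractionRing.injective R K
noncomputable def φ : R →+* D := AddMonoidAlgebra.mapRingHom ℤ (Int.castRingHom (ZMod 2))
lemma φT (d : ℤ) : φ (T d) = T d :=
  (AddMonoidAlgebra.mapRingHom_single _ _ _).trans (by rw [map_one]; rfl)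
noncomputable def ε : R →+* ZMod 2 := (LaurentPolynomial.eval₂ (RingHom.id _) 1).comp φ
lemma εT (d : ℤ) : ε (T d) = 1 := by simp [ε, φT]
lemma D2 : (2 : D) = 0 := by
  rw [← map_ofNat (C : ZMod 2 →+* D) 2, show (2 : ZMod 2) = 0 from rfl, map_zero]
lemma T1 {d : ℤ} (h : (T d : D) = 1) : d = 0 := by
  by_contra e
  have := congrArg (fun f : D => f.coeff 0) (h.trans T_zero.symm)
  simp only [T_apply] at this
  simp [e] at this
lemma Tm (d : ℤ) : (T d : R) ≠ -1 := fun h => by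
  have := congrArg (LaurentPolynomial.eval₂ (RingHom.id ℤ) 1) h
  simp at this
lemma K2 : (2 : K) ≠ 0 := fun h => Tm 0 (ai (by rw [T_zero, map_one, map_neg, map_one]; grind))

def P (u b : R) : Prop := ∃ d, (u = T d ∧ ε b = 0) ∨ (u = -T d ∧ ε b = 1)

def Γ : Subgroup (Equiv.Perm K) where
  carrier := {g | ∃ u b : R, P u b ∧ ∀ x, g x = a u * x + a b}
  one_mem' := ⟨1, 0, ⟨0, by simp⟩, by simp⟩
  mul_mem' := by
    rintro g h ⟨u, b, ⟨d, e⟩, hg⟩ ⟨u', b', ⟨d', e'⟩, hh⟩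
    refine ⟨u * u', u * b' + b, ⟨d + d', ?_⟩, fun x => ?_⟩
    · rcases e with ⟨rfl, e⟩ | ⟨rfl, e⟩ <;> rcases e' with ⟨rfl, e'⟩ | ⟨rfl, e'⟩ <;>
        rw [T_add] <;> simp [-T_mul, εT, e, e', show (1 : ZMod 2) + 1 = 0 from rfl]
    simp only [Equiv.Perm.mul_apply, hg, hh, map_mul, map_add]; ring
  inv_mem' := by
    rintro g ⟨u, b, ⟨d, e⟩, hg⟩
    have e' : a (T d) * a (T (-d)) = 1 := by rw [← map_mul, ← T_add]; simp
    rcases e with ⟨rfl, e⟩ | ⟨rfl, e⟩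
    · refine ⟨T (-d), -T (-d) * b, ⟨-d, by simp [εT, e]⟩, fun x => ?_⟩
      rw [Equiv.Perm.inv_eq_iff_eq, hg, map_mul, map_neg]
      linear_combination (a b - x) * e'
    · refine ⟨-T (-d), T (-d) * b, ⟨-d, by simp [εT, e]⟩, fun x => ?_⟩
      rw [Equiv.Perm.inv_eq_iff_eq, hg, map_mul, map_neg, map_neg]
      linear_combination (a b - x) * e'

def N (c : K) (hc : c * c = 1) : Subgroup Γ where
  carrier := {g | (∀ x, g.1 x - x = g.1 0) ∨ ∀ x, g.1 x - c * x = g.1 0}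
  one_mem' := by simp
  mul_mem' := by
    intro g h hg hh
    change (∀ x, g.1 (h.1 x) - x = g.1 (h.1 0)) ∨ ∀ x, g.1 (h.1 x) - c * x = g.1 (h.1 0)
    rcases hg with hg | hg <;> rcases hh with hh | hh <;> [left; right; right; left] <;> intro x <;>
      have := hg (h.1 x) <;> have := hg (h.1 0) <;> have := hh x <;> grind
  inv_mem' := by
    intro g hg
    change (∀ x, g.1⁻¹ x - x = g.1⁻¹ 0) ∨ ∀ x, g.1⁻¹ x - c * x = g.1⁻¹ 0
    rcases hg with hg | hg <;> [left; right] <;> intro x <;> have a := hg (g.1⁻¹ x) <;>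
      have b := hg (g.1⁻¹ 0) <;>
      rw [show ∀ y, g.1 (g.1⁻¹ y) = y from g.1.apply_symm_apply] at a b <;> grind

lemma nor (c : K) (hc : c * c = 1) : (N c hc).Normal := ⟨fun n hn g => by
  obtain ⟨u, b, -, hg⟩ := g.2
  change (∀ x, g.1 (n.1 (g.1⁻¹ x)) - x = g.1 (n.1 (g.1⁻¹ 0))) ∨
    ∀ x, g.1 (n.1 (g.1⁻¹ x)) - c * x = g.1 (n.1 (g.1⁻¹ 0))
  rcases hn with hn | hn <;> [left; right] <;> intro x <;>
  · have a1 := hn (g.1⁻¹ x); have c1 := hn (g.1⁻¹ 0)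
    have a' := hg (g.1⁻¹ x); have c' := hg (g.1⁻¹ 0)
    rw [show ∀ y, g.1 (g.1⁻¹ y) = y from g.1.apply_symm_apply] at a' c'
    rw [hg, hg]; grind⟩

lemma two (g : Γ) {p q : K} (h : p ≠ q) (hp : g.1 p = p) (hq : g.1 q = q) : g = 1 := by
  obtain ⟨u, b, -, hg⟩ := g.2
  rw [hg] at hp hq
  have : a u = 1 := by grind
  ext x
  change g.1 x = x
  grind

lemma one (g : Γ) {p : K} (h : ∀ x, g.1 x - x = g.1 0) (hp : g.1 p = p) : g = 1 :=
  two g (q := p + 1) (by simp) hp (by have := h p; have := h (p + 1); grind)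

lemma fix (g : Γ) (h : ¬ ∀ x, g.1 x - x = g.1 0) : ∃ p, g.1 p = p := by
  obtain ⟨u, b, -, hg⟩ := g.2
  by_cases e : a u = 1
  · exact absurd (fun x => by rw [hg, hg, e]; ring) h
  · have : (1 : K) - a u ≠ 0 := fun h => e (by grind)
    exact ⟨a b / (1 - a u), by rw [hg]; field_simp; ring⟩

noncomputable def mk (u b : R) (e : P u b) : Γ :=
  ⟨(Equiv.mulLeft₀ (a u) fun h => by
      have := congrArg ε (ai (h.trans (map_zero a).symm))
      obtain ⟨d, ⟨rfl, -⟩ | ⟨rfl, -⟩⟩ := e <;> simp [εT] at this).trans (Equiv.addRight (a b)),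
    u, b, e, fun _ => rfl⟩

lemma mka (u b e x) : (mk u b e).1 x = a u * x + a b := rfl

noncomputable abbrev N1 := N 1 (one_mul 1)
noncomputable abbrev N2 := N (-1) (by ring)

lemma key (p : K) (g h : Γ) (hg : g.1 p = p) (hh : h.1 p = p) (m : g ∈ N2) (g1 : g ≠ 1) : h ∈ N2 := by
  rcases m with m | m
  · exact absurd (one g m hg) g1
  obtain ⟨u, b, ⟨d, e⟩, gx⟩ := g.2
  obtain ⟨u', b', ⟨d', e'⟩, hx⟩ := h.2
  have h1 : u = -1 := ai (by have := m 1; rw [gx, gx] at this; rw [map_neg, map_one]; grind)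
  have h2 : ε b = 1 := by
    rcases e with ⟨e, -⟩ | ⟨-, e⟩
    exacts [absurd (e.symm.trans h1) (Tm d), e]
  have h3 : (1 - u') * b = 2 * b' := ai (by
    rw [gx, h1, map_neg, map_one] at hg; rw [hx] at hh
    simp only [map_mul, map_sub, map_one, map_ofNat]; grind)
  have h4 := congrArg φ h3
  rw [map_mul, map_mul, map_ofNat, D2, zero_mul, mul_eq_zero, map_sub, map_one] at h4
  have h5 : φ u' = 1 := by
    rcases h4 with h4 | h4
    · grind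
    · simp [ε, h4] at h2
  have := D2
  rcases e' with ⟨rfl, -⟩ | ⟨rfl, -⟩
  · obtain rfl := T1 ((φT _).symm.trans h5)
    left; intro x; rw [hx, hx]; simp
  · obtain rfl : d' = 0 := T1 (by rw [map_neg, φT] at h5; grind)
    right; intro x; rw [hx, hx]; simp

noncomputable def r : Γ := mk (T 1) 0 ⟨1, by simp⟩
noncomputable def s : Γ := mk (-1) 1 ⟨0, by simp⟩
lemma hr (x) : r.1 x = a (T 1) * x := (mka _ _ _ x).trans (by simp)
lemma hs (x) : s.1 x = 1 - x := (mka _ _ _ x).trans (by rw [map_neg, map_one]; ring)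
lemma r0 : r ∈ stabilizer Γ (0 : K) := show r.1 0 = 0 by simp [hr]
lemma r2 (c : K) (hc : c * c = 1) : r ∉ N c hc ∧ r * r ≠ 1 := by
  have k : a (T 1) * a (T 1) ≠ 1 := fun h => by
    have := congrArg φ (ai ((map_mul a _ _).trans (h.trans (map_one a).symm)))
    rw [← T_add, φT, map_one] at this
    simpa using T1 this
  refine ⟨?_, fun h => k ?_⟩
  · rintro (h | h) <;> have := h 1 <;> simp only [hr] at this <;> grind
  · simpa [hr] using (show r.1 (r.1 1) = 1 from congrArg (fun g : Γ => g.1 1) h)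
lemma s2 : s ∈ N2 := Or.inr fun x => by simp [hs]
lemma s1 : s ∉ N1 := by
  have := K2
  rintro (h | h) <;> have := h 1 <;> simp only [hs] at this <;> grind

def 𝒜 (M : Subgroup Γ) : Set (Subgroup Γ) := {A | ¬ A ≤ M ∧ ∃ p : K, A = stabilizer Γ p}

lemma fp (c : K) (hc : c * c = 1) (k : ∀ (p : K) (g h : Γ), g.1 p = p → h.1 p = p → g ∈ N c hc →
    g ≠ 1 → h ∈ N c hc) : FP (N c hc) (𝒜 (N c hc)) := by
  have A0 : ¬ stabilizer Γ (0 : K) ≤ N c hc := fun h => (r2 c hc).1 (h r0)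
  refine ⟨fun g g1 => ?_, nor c hc, ?_, ?_, _, Or.inl rfl, _, Or.inr ⟨A0, _, rfl⟩,
    fun h => A0 h.ge, fun h => ?_, fun h => A0 (h ▸ bot_le)⟩
  · by_cases h : g ∈ N c hc
    · refine ⟨_, ⟨Or.inl rfl, h⟩, ?_⟩
      rintro H ⟨rfl | ⟨e, p, rfl⟩, hH⟩
      exacts [rfl, absurd (fun x hx => k p g x hH hx h g1) e]
    · obtain ⟨p, hp⟩ := fix g fun e => h (Or.inl e)
      refine ⟨stabilizer Γ p, ⟨Or.inr ⟨fun e => h (e hp), p, rfl⟩, hp⟩, ?_⟩
      rintro H ⟨rfl | ⟨-, q, rfl⟩, hH⟩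
      · exact absurd hH h
      · by_contra e
        exact g1 (two g (fun h => e (by rw [h])) hH hp)
  · rintro A ⟨-, p, rfl⟩ γ hγ x ha h
    refine two x (q := γ.1 p) (fun e => hγ e.symm) ha ?_
    have : γ.1⁻¹ (x.1 (γ.1 p)) = p := h
    rwa [Equiv.Perm.inv_eq_iff_eq] at this
  · rintro A ⟨h, p, rfl⟩ γ
    refine ⟨fun e => h fun x hx => ?_, γ.1⁻¹ p, ?_⟩
    · simpa [mul_assoc] using (nor c hc).1 _ (e (x := γ⁻¹ * x * γ) (by simpa [mul_assoc] using hx)) γ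
    · ext x
      change γ.1 (x.1 (γ.1⁻¹ p)) = p ↔ x.1 (γ.1⁻¹ p) = γ.1⁻¹ p
      rw [Equiv.Perm.eq_inv_iff_eq]
  · have m : mk 1 2 ⟨0, Or.inl ⟨T_zero.symm, map_ofNat ε 2⟩⟩ ∈ N c hc := Or.inl fun x =>
      show a 1 * x + a 2 - x = a 1 * 0 + a 2 by simp
    rw [h, Subgroup.mem_bot] at m
    have : a 1 * 0 + a 2 = 0 := congrArg (fun g : Γ => g.1 0) m
    exact K2 (by simpa [map_ofNat] using this)

theorem result : ∃ (G : Type) (_ : Group G) (N : Subgroup G) (𝒜 : Set (Subgroup G)),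
    Infinite G ∧ FP N 𝒜 ∧ (∀ A ∈ 𝒜, A ≠ ⊥) ∧
    (∃ (N' : Subgroup G) (𝒜' : Set (Subgroup G)), FP N' 𝒜' ∧ N' ≠ N) ∧
    (∃ A ∈ 𝒜, ∃ B ∈ 𝒜, IsEmpty (A ≃* B)) ∧ ∀ A ∈ 𝒜, ¬ ∀ g, ∃ n ∈ N, ∃ x ∈ A, g = n * x := by
  have le : N1 ≤ N2 := fun g h => Or.inl (h.elim id fun h x => by simpa using h x)
  have s0 : s ∈ stabilizer Γ (1 / 2 : K) := show s.1 _ = 1 / 2 by
    have := K2
    rw [hs]; field_simp; ring
  have sn : s ≠ 1 := fun h => s1 (h ▸ one_mem _)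
  refine ⟨Γ, inferInstance, N1, 𝒜 N1, ?_, fp _ _ fun p g h hg _ m g1 => absurd (one g
    (m.elim id fun h x => by simpa using h x) hg) g1, fun A h e => h.1 (e ▸ bot_le),
    ⟨N2, _, fp _ _ key, fun h => s1 (h ▸ s2)⟩,
    ⟨_, ⟨fun h => (r2 _ _).1 (h r0), _, rfl⟩, _, ⟨fun h => s1 (h s0), _, rfl⟩,
      ⟨fun ψ => (r2 1 (one_mul 1)).2 ?_⟩⟩, ?_⟩
  · refine Infinite.of_injective (fun d : ℤ => mk (T d) 0 ⟨d, by simp⟩) fun b c h => ?_
    have h1 : a (T b) * 1 + a 0 = a (T c) * 1 + a 0 := congrArg (fun g : Γ => g.1 1) h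
    have h2 := congrArg (fun f : R => f.coeff c) (ai (by simpa using h1) : T b = T c)
    simpa [T_apply] using h2
  · have k : ∀ g : stabilizer Γ (1 / 2 : K), g * g = 1 := fun g => by
      rcases key _ s g s0 g.2 s2 sn with m | m
      · rw [show g = 1 from Subtype.ext (one _ m g.2), one_mul]
      · ext x
        change g.1.1 (g.1.1 x) = x
        have := m x; have := m (g.1.1 x); grind
    exact congrArg Subtype.val (ψ.injective (a₁ := ⟨r, r0⟩ * ⟨r, r0⟩) (a₂ := 1)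
      (by rw [map_mul, k, map_one]))
  · rintro A ⟨-, p, rfl⟩ h
    obtain ⟨n, hn, x, hx, e⟩ := h s
    obtain ⟨n', hn', x', hx', e'⟩ := h r
    refine (r2 _ _).1 (e' ▸ mul_mem (le hn') (key p x x' hx hx' ?_ fun h => s1 ?_))
    · exact (mul_mem_cancel_left (le hn)).1 (e ▸ s2)
    · rw [e, h, mul_one]; exact hn

end Pool.Agent.Results.MP_c23b5e_al.Full
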